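import Pool.Agent.helper28.PV.SpecS

set_option autoImplicit false

open scoped Matrix Topology
open Filter

namespace Pool.Agent.PV

open Pool.Agent.CZ

theorem KAP_add (a b : UnitAddCircle) : (fourier 1 (a + b) : ℂ) = fourier 1 a * fourier 1 b := by
  rw [fourier_one, fourier_one, fourier_one, AddCircle.toCircle_add, Circle.coe_mul]

theorem KAP_mul {X : Type} [TopologicalSpace X] (u v : C(X, UnitAddCircle)) :
    wU (u + v) = wU u * wU v := by
  apply Units.ext
  ext i j x
  rw [Units.val_mul, Matrix.mul_apply]
  simp only [Finset.univ_unique, Finset.sum_singleton]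
  exact KAP_add (u x) (v x)

/-- ROW pvs:KAP -/
theorem KAP (hK1M : K1M_stmt) : KAP_stmt := by
  have h1 : ∀ (X : Type) [TopologicalSpace X] (u v : C(X, UnitAddCircle)),
      kap (u + v) = kap u + kap v := by
    intro X _ u v
    unfold kap
    rw [KAP_mul]
    exact (hK1M C(X, ℂ) Unit (wU u) (wU v)).1
  refine ⟨h1, ?_, ?_, ?_, ?_⟩
  · intro X _
    exact map_zero (AddMonoidHom.mk' (kap (X := X)) (h1 X))
  · intro X _ u n
    exact map_zsmul (AddMonoidHom.mk' (kap (X := X)) (h1 X)) n u
  · intro X Y _ _ f hf u
    unfold kap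
    rw [k1map_k1]
    congr 1
  · intro X _ u v δ hv
    unfold kap
    symm
    apply (hK1M C(X, ℂ) Unit (wU u) (wU v)).2.2.2
    let F : C(unitInterval × X, ℂ) := ⟨fun z => fourier 1 (u z.2 + ((((z.1 : ℝ) * δ z.2 : ℝ)) : UnitAddCircle)), by
      refine (map_continuous (fourier 1)).comp ?_
      refine (u.continuous.comp continuous_snd).add ?_
      refine (AddCircle.continuous_mk' 1).comp ?_
      exact (continuous_subtype_val.comp continuous_fst).mul (δ.continuous.comp continuous_snd)⟩
    have hF : ∀ (s : unitInterval) (x : X), F.curry s x =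
        fourier 1 (u x + ((((s : ℝ) * δ x : ℝ)) : UnitAddCircle)) := fun s x => rfl
    refine ⟨⟨fun s => Matrix.of fun _ _ => F.curry s, ?_⟩, ?_, ?_, ?_⟩
    · exact continuous_matrix fun _ _ => F.curry.continuous
    · intro s
      let w : C(X, UnitAddCircle) := ⟨fun x => u x + ((((s : ℝ) * δ x : ℝ)) : UnitAddCircle),
        u.continuous.add ((AddCircle.continuous_mk' 1).comp (continuous_const.mul δ.continuous))⟩
      refine ⟨wU w, ?_⟩
      ext i j x
      rfl
    · ext i j x
      change F.curry 0 x = fourier 1 (u x)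
      rw [hF]
      simp
    · ext i j x
      change F.curry 1 x = fourier 1 (v x)
      rw [hF, hv]
      simp

end Pool.Agent.PV
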