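import Pool.Agent.helper45.PV.SpecG

/-!
# Project pv, block G: row MCS (the mapping cone as a space)
-/

set_option autoImplicit false

open scoped Matrix Topology

namespace Pool.Agent.PV

open Pool.Agent.CZ

/-- the subalgebra of the functions on `unitInterval × X` that live on the mapping cone -/
noncomputable def MCS_R {X : Type} [TopologicalSpace X] (f : C(X, X)) (x₀ : X) :
    StarSubalgebra ℂ C(unitInterval × X, ℂ) where
  carrier := {h | (∀ x, h (0, x) = h (0, x₀)) ∧ ∀ x x', f x = f x' → h (1, x) = h (1, x')}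
  mul_mem' := by
    rintro a b ⟨ha, ha'⟩ ⟨hb, hb'⟩
    refine ⟨fun x => ?_, fun x x' h => ?_⟩
    · rw [ContinuousMap.mul_apply, ContinuousMap.mul_apply, ha x, hb x]
    · rw [ContinuousMap.mul_apply, ContinuousMap.mul_apply, ha' x x' h, hb' x x' h]
  add_mem' := by
    rintro a b ⟨ha, ha'⟩ ⟨hb, hb'⟩
    refine ⟨fun x => ?_, fun x x' h => ?_⟩
    · rw [ContinuousMap.add_apply, ContinuousMap.add_apply, ha x, hb x]
    · rw [ContinuousMap.add_apply, ContinuousMap.add_apply, ha' x x' h, hb' x x' h]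
  algebraMap_mem' := fun c => ⟨fun _ => rfl, fun _ _ _ => rfl⟩
  star_mem' := by
    rintro a ⟨ha, ha'⟩
    refine ⟨fun x => ?_, fun x x' h => ?_⟩
    · rw [ContinuousMap.star_apply, ContinuousMap.star_apply, ha x]
    · rw [ContinuousMap.star_apply, ContinuousMap.star_apply, ha' x x' h]

theorem MCS_closed {X : Type} [TopologicalSpace X] (f : C(X, X)) (x₀ : X) :
    IsClosed (MCS_R f x₀ : Set C(unitInterval × X, ℂ)) := by
  have e : (MCS_R f x₀ : Set C(unitInterval × X, ℂ)) =
      (⋂ x, {h : C(unitInterval × X, ℂ) | h (0, x) = h (0, x₀)}) ∩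
      ⋂ x, ⋂ x', ⋂ (_ : f x = f x'), {h : C(unitInterval × X, ℂ) | h (1, x) = h (1, x')} := by
    ext h
    simp only [Set.mem_inter_iff, Set.mem_iInter, Set.mem_ofPred_eq]
    exact Iff.rfl
  rw [e]
  refine IsClosed.inter (isClosed_iInter fun x => ?_)
    (isClosed_iInter fun x => isClosed_iInter fun x' => isClosed_iInter fun _ => ?_)
  · exact isClosed_eq (continuous_eval_const _) (continuous_eval_const _)
  · exact isClosed_eq (continuous_eval_const _) (continuous_eval_const _)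

/-- a function constant on the fibres of `f` descends -/
theorem MCS_desc {X : Type} [TopologicalSpace X] [CompactSpace X] [T2Space X] (f : C(X, X))
    (hf : Function.Surjective f) (k : C(X, ℂ)) (hk : ∀ x x', f x = f x' → k x = k x') :
    ∃ g : C(X, ℂ), g.comp f = k := by
  have hq : Topology.IsQuotientMap f := f.continuous.isClosedMap.isQuotientMap f.continuous hf
  refine ⟨hq.lift k fun a b h => hk a b h, ?_⟩
  exact hq.lift_comp k fun a b h => hk a b h

theorem MCS (hSUB : SUB_stmt) : MCS_stmt := by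
  intro X _ _ _ _ f x₀ hf
  obtain ⟨Y, tY, cY, mY, p, hp, hR⟩ := hSUB (unitInterval × X) (MCS_R f x₀) (MCS_closed f x₀)
  have hφ : Function.Injective (pbC ℂ f) := by
    intro a b hab
    ext x
    obtain ⟨x', rfl⟩ := hf x
    exact DFunLike.congr_fun hab x'
  have huniq : ∀ m m' : MC (pbC ℂ f), (∀ s, pM (pbC ℂ f) s m = pM (pbC ℂ f) s m') → m = m' := by
    intro m m' h
    refine extM1 _ _ _ h (hφ ?_)
    rw [← MC_eq1, ← MC_eq1, h]
  have hex : ∀ h : C(Y, ℂ), ∃ m : MC (pbC ℂ f), ∀ s x, pM (pbC ℂ f) s m x = h (p (s, x)) := by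
    intro h
    have hm : h.comp p ∈ MCS_R f x₀ := (hR _).2 ⟨h, rfl⟩
    obtain ⟨h0, h1⟩ := hm
    obtain ⟨g, hg⟩ := MCS_desc f hf (((h.comp p).curry) 1) (fun x x' e => h1 x x' e)
    obtain ⟨m, hm⟩ := vM_ex (pbC ℂ f) ((h.comp p).curry, g) (h (p (0, x₀)))
      (by
        ext x
        exact h0 x) hg.symm
    refine ⟨m, fun s x => ?_⟩
    change (vM (pbC ℂ f) m).1 s x = _
    rw [hm]
    rfl
  choose F hF using hex
  have hone : F 1 = 1 := by
    refine huniq _ _ fun s => ?_
    ext x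
    rw [hF, map_one]
    rfl
  have hzero : F 0 = 0 := by
    refine huniq _ _ fun s => ?_
    ext x
    rw [hF, map_zero]
    rfl
  have hmul : ∀ a b, F (a * b) = F a * F b := by
    intro a b
    refine huniq _ _ fun s => ?_
    ext x
    rw [hF, map_mul, ContinuousMap.mul_apply, ContinuousMap.mul_apply, hF, hF]
  have hadd : ∀ a b, F (a + b) = F a + F b := by
    intro a b
    refine huniq _ _ fun s => ?_
    ext x
    rw [hF, map_add, ContinuousMap.add_apply, ContinuousMap.add_apply, hF, hF]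
  have hcom : ∀ c : ℂ, F (algebraMap ℂ C(Y, ℂ) c) = algebraMap ℂ (MC (pbC ℂ f)) c := by
    intro c
    refine huniq _ _ fun s => ?_
    ext x
    rw [hF, AlgHom.commutes]
    rfl
  let Φ : C(Y, ℂ) →ₐ[ℂ] MC (pbC ℂ f) :=
    { toFun := F, map_one' := hone, map_mul' := hmul, map_zero' := hzero, map_add' := hadd,
      commutes' := hcom }
  have hΦ : ∀ h s x, pM (pbC ℂ f) s (Φ h) x = h (p (s, x)) := hF
  have hinj : Function.Injective Φ := by
    intro a b hab
    ext y
    obtain ⟨⟨s, x⟩, rfl⟩ := hp y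
    rw [← hΦ, ← hΦ, hab]
  have hsurj : Function.Surjective Φ := by
    intro m
    have hmem : (vM (pbC ℂ f) m).1.uncurry ∈ MCS_R f x₀ := by
      refine ⟨fun x => ?_, fun x x' e => ?_⟩
      · obtain ⟨c, hc⟩ := (vM_mem (pbC ℂ f) m).1
        change (vM (pbC ℂ f) m).1 0 x = (vM (pbC ℂ f) m).1 0 x₀
        rw [hc]
        rfl
      · have h1 := (vM_mem (pbC ℂ f) m).2
        change (vM (pbC ℂ f) m).1 1 x = (vM (pbC ℂ f) m).1 1 x'
        rw [h1]
        change (vM (pbC ℂ f) m).2 (f x) = (vM (pbC ℂ f) m).2 (f x')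
        rw [e]
    obtain ⟨h, hh⟩ := (hR _).1 hmem
    refine ⟨h, huniq _ _ fun s => ?_⟩
    ext x
    rw [hΦ]
    exact DFunLike.congr_fun hh (s, x)
  have hb1 : ∀ h, ‖Φ h‖ ≤ 1 * ‖h‖ := by
    intro h
    rw [one_mul, ← vM_norm, Prod.norm_def]
    refine max_le ?_ ?_
    · rw [ContinuousMap.norm_le _ (norm_nonneg h)]
      intro s
      rw [ContinuousMap.norm_le _ (norm_nonneg h)]
      intro x
      have := hΦ h s x
      change (vM (pbC ℂ f) (Φ h)).1 s x = _ at this
      rw [this]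
      exact ContinuousMap.norm_coe_le_norm h _
    · rw [ContinuousMap.norm_le _ (norm_nonneg h)]
      intro x
      obtain ⟨x', rfl⟩ := hf x
      have h1 := (vM_mem (pbC ℂ f) (Φ h)).2
      have h2 : (vM (pbC ℂ f) (Φ h)).2 (f x') = (vM (pbC ℂ f) (Φ h)).1 1 x' := by
        rw [h1]
        rfl
      have h3 := hΦ h 1 x'
      change (vM (pbC ℂ f) (Φ h)).1 1 x' = _ at h3
      rw [h2, h3]
      exact ContinuousMap.norm_coe_le_norm h _
  have hb2 : ∀ h, ‖h‖ ≤ ‖Φ h‖ := by
    intro h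
    rw [ContinuousMap.norm_le _ (norm_nonneg _)]
    intro y
    obtain ⟨⟨s, x⟩, rfl⟩ := hp y
    have h3 := hΦ h s x
    change (vM (pbC ℂ f) (Φ h)).1 s x = _ at h3
    rw [← h3]
    refine (ContinuousMap.norm_coe_le_norm _ x).trans ?_
    refine (ContinuousMap.norm_coe_le_norm _ s).trans ?_
    rw [← vM_norm, Prod.norm_def]
    exact le_max_left _ _
  have hI : PathConnectedSpace unitInterval := by
    refine isPathConnected_iff_pathConnectedSpace.1 ?_
    exact (convex_Icc (0 : ℝ) 1).isPathConnected ⟨0, le_refl _, zero_le_one⟩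
  have : PathConnectedSpace Y := hp.pathConnectedSpace p.continuous
  refine ⟨Y, tY, cY, mY, this, p (0, x₀), AlgEquiv.ofBijective Φ ⟨hinj, hsurj⟩, ?_, ?_, ?_⟩
  · exact AddMonoidHomClass.continuous_of_bound Φ 1 hb1
  · refine AddMonoidHomClass.continuous_of_bound (AlgEquiv.ofBijective Φ ⟨hinj, hsurj⟩).symm 1 ?_
    intro m
    rw [one_mul]
    refine (hb2 _).trans (le_of_eq ?_)
    congr 1
    exact (AlgEquiv.ofBijective Φ ⟨hinj, hsurj⟩).apply_symm_apply m
  · intro h
    exact hΦ h 0 x₀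

end Pool.Agent.PV
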