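import Pool.Agent.helper77.PV.SpecC

set_option autoImplicit false

open scoped Matrix Topology
open Filter

namespace Pool.Agent.PV

open Pool.Agent.CZ

/-- a path with equal ends is a loop -/
theorem LPC_loop {B : Type} [TopologicalSpace B] (f : unitInterval → B) (hf : Continuous f)
    (h01 : f 0 = f 1) : ∃ g : C(UnitAddCircle, B), ∀ s : unitInterval, g ((s : ℝ) : UnitAddCircle) = f s := by
  let F : ℝ → B := Set.IccExtend (zero_le_one : (0 : ℝ) ≤ 1) f
  have hF : Continuous F := hf.Icc_extend'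
  have hFs : ∀ s : unitInterval, F s = f s := fun s => Set.IccExtend_val _ _ s
  have hF0 : F 0 = f 0 := hFs 0
  have hF1 : F 1 = f 1 := hFs 1
  have hc : Continuous (AddCircle.liftIco (1 : ℝ) 0 F) := by
    apply AddCircle.liftIco_zero_continuous
    · rw [hF0, hF1, h01]
    · exact hF.continuousOn
  refine ⟨⟨AddCircle.liftIco (1 : ℝ) 0 F, hc⟩, fun s => ?_⟩
  change AddCircle.liftIco (1 : ℝ) 0 F ((s : ℝ) : UnitAddCircle) = f s
  rcases lt_or_eq_of_le s.2.2 with h1 | h1
  · rw [AddCircle.liftIco_zero_coe_apply ⟨s.2.1, h1⟩]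
    exact hFs s
  · have hs : s = 1 := Subtype.ext h1
    have e : ((s : ℝ) : UnitAddCircle) = ((0 : ℝ) : UnitAddCircle) := by
      rw [h1]
      exact (AddCircle.coe_period (1 : ℝ)).trans (AddCircle.coe_zero (1 : ℝ)).symm
    rw [e, AddCircle.liftIco_zero_coe_apply ⟨le_refl _, zero_lt_one⟩, hF0, h01, hs]

/-- ROW pv:LPC -/
theorem LPC : LPC_stmt := by
  intro B _ ι _ h h01
  have h1 : ∀ i j, ∃ g : C(UnitAddCircle, B), ∀ s : unitInterval,
      g ((s : ℝ) : UnitAddCircle) = h s i j := by
    intro i j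
    refine LPC_loop (fun s => h s i j) ?_ ?_
    · exact (continuous_apply j).comp ((continuous_apply i).comp h.continuous)
    · exact congrFun (congrFun h01 i) j
  choose g hg using h1
  refine ⟨Matrix.of g, fun s => ?_⟩
  ext i j
  exact hg i j s

end Pool.Agent.PV
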