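import Pool.Agent.helper77.PV.SpecB

set_option autoImplicit false

open scoped Matrix Topology
open Filter

namespace Pool.Agent.PV

open Pool.Agent.CZ

attribute [local instance] Matrix.linftyOpNormedRing Matrix.linftyOpNormedAlgebra

theorem QOP_rL_neg_one {B A : Type} [NormedRing B] [NormedAlgebra ℂ B] [NormedRing A] [NormedAlgebra ℂ A]
    {al : B ≃ₐ[ℂ] B} {io : B →ₐ[ℂ] A} {u : Aˣ} {c : ℤ → A →ₗ[ℂ] B} (h : ZPair al io u c)
    (κ : Type) [Fintype κ] [DecidableEq κ] : rL c (uM κ u) (-1) = 1 := by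
  have h1 : c (-1) ((u⁻¹ : Aˣ) : A) = 1 := by
    have h2 := h.cval (-1) (-1) 1
    rw [if_pos rfl, map_one, one_mul, zpow_neg_one] at h2
    exact h2
  ext i j
  unfold rL
  rw [Matrix.map_apply]
  have h3 : (((uM κ u)⁻¹ : (Matrix κ κ A)ˣ) : Matrix κ κ A) =
      Matrix.scalar κ ((u⁻¹ : Aˣ) : A) := rfl
  rw [h3, Matrix.scalar_apply, Matrix.diagonal_apply, Matrix.one_apply]
  split_ifs
  · exact h1
  · exact map_zero _

/-- ROW pv:QOP -/
theorem QOP (_hQDM : QDM_stmt) (_hK0B : K0B_stmt) (_hK0E : K0E_stmt) (hZC : ZC_stmt) : QOP_stmt := by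
  intro B A _ _ _ _ _ _ al io u c hz κ κ' _ _ _ _
  obtain ⟨-, -, hc1, -, -, -, -⟩ := hZC B A al io u c hz
  refine ⟨?_, ?_, ?_, ?_, ?_, ?_⟩
  · intro b b' L L' K hK
    have hinv : ((K⁻¹ : (Matrix (κ ⊕ κ') (κ ⊕ κ') A)ˣ) : Matrix (κ ⊕ κ') (κ ⊕ κ') A) =
        Matrix.fromBlocks ((L⁻¹ : (Matrix κ κ A)ˣ) : Matrix κ κ A) 0 0
          ((L'⁻¹ : (Matrix κ' κ' A)ˣ) : Matrix κ' κ' A) := by
      apply Units.inv_eq_of_mul_eq_one_right
      rw [hK, Matrix.fromBlocks_multiply]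
      simp
    unfold qL rL
    rw [hinv, Matrix.fromBlocks_map, Matrix.fromBlocks_map, Matrix.fromBlocks_multiply]
    have e1 : (0 : Matrix κ κ' A).map (c (-1)) = 0 := Matrix.map_zero _ (map_zero _)
    have e2 : (0 : Matrix κ' κ A).map (c (-1)) = 0 := Matrix.map_zero _ (map_zero _)
    have e3 : (0 : Matrix κ κ' B).map al.symm = 0 := Matrix.map_zero _ (map_zero _)
    have e4 : (0 : Matrix κ' κ B).map al.symm = 0 := Matrix.map_zero _ (map_zero _)
    rw [e1, e2, e3, e4]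
    simp
  · intro f b L
    unfold qL rL
    have hinv : (((rix f L)⁻¹ : (Matrix κ' κ' A)ˣ) : Matrix κ' κ' A) =
        ((L⁻¹ : (Matrix κ κ A)ˣ) : Matrix κ κ A).submatrix f.symm f.symm := rfl
    rw [hinv, ← Matrix.submatrix_map, ← Matrix.submatrix_map, Matrix.submatrix_mul_equiv]
  · intro b σ L
    have hr : rL c (umap io.toRingHom σ * L) (-1) =
        rL c L (-1) * ((σ⁻¹ : (Matrix κ κ B)ˣ) : Matrix κ κ B).map al.symm := by
      unfold rL
      have e1 : (((umap io.toRingHom σ * L)⁻¹ : (Matrix κ κ A)ˣ) : Matrix κ κ A) =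
          ((L⁻¹ : (Matrix κ κ A)ˣ) : Matrix κ κ A) *
            (((σ⁻¹ : (Matrix κ κ B)ˣ) : Matrix κ κ B).map io) := by
        rw [mul_inv_rev, Units.val_mul]
        rfl
      rw [e1]
      ext i j
      rw [Matrix.map_apply, Matrix.mul_apply, Matrix.mul_apply, map_sum]
      refine Finset.sum_congr rfl fun k _ => ?_
      rw [Matrix.map_apply, Matrix.map_apply, Matrix.map_apply, hc1]
      rfl
    unfold qL
    rw [hr, Matrix.mul_assoc]
    congr 1
    have e2 : ((σ⁻¹ : (Matrix κ κ B)ˣ) : Matrix κ κ B).map al.symm *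
        ((σ : Matrix κ κ B) * b).map al.symm =
        (((σ⁻¹ : (Matrix κ κ B)ˣ) : Matrix κ κ B) * ((σ : Matrix κ κ B) * b)).map al.symm :=
      (Matrix.map_mul (f := al.symm)).symm
    rw [e2, ← Matrix.mul_assoc]
    have e3 : ((σ⁻¹ : (Matrix κ κ B)ˣ) : Matrix κ κ B) * (σ : Matrix κ κ B) = 1 := σ.inv_mul
    rw [e3, Matrix.one_mul]
  · intro L
    unfold qL
    have e3 : (0 : Matrix κ κ B).map al.symm = 0 := Matrix.map_zero _ (map_zero _)
    rw [e3, Matrix.mul_zero]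
  · unfold qL
    rw [QOP_rL_neg_one hz, Matrix.map_one _ (map_zero _) (map_one _), Matrix.mul_one]
  · have hr : rL c (-(uM κ u)) (-1) = -1 := by
      rw [← QOP_rL_neg_one hz κ]
      unfold rL
      ext i j
      have e1 : (((-(uM κ u))⁻¹ : (Matrix κ κ A)ˣ) : Matrix κ κ A) =
          -(((uM κ u)⁻¹ : (Matrix κ κ A)ˣ) : Matrix κ κ A) := rfl
      rw [e1, Matrix.map_apply, Matrix.neg_apply, Matrix.neg_apply, Matrix.map_apply, map_neg]
    unfold qL
    have e2 : (-1 : Matrix κ κ B).map al.symm = -1 := by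
      ext i j
      rw [Matrix.map_apply, Matrix.neg_apply, map_neg, Matrix.one_apply]
      split_ifs
      · rw [map_one]
      · rw [map_zero]
    rw [hr, e2, neg_mul_neg, Matrix.mul_one]

end Pool.Agent.PV
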